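import Pool.Agent.H13.LN.Targets

/-!
# Board lnt_modules, row PRM: the names of the double points
-/

set_option autoImplicit false

open Finset Pool.Agent.H59.LIN Pool.Agent.H13.LN

namespace Pool.Agent.H26.LNT

/-- every number below `d` occurs twice -/
def Va (d : ℕ) (l : List ℕ) : Prop := ∀ k, l.count k = if k < d then 2 else 0

/-- singles -/
def Sg (l : List ℕ) : List (List ℕ) := [] :: l.map (fun k => [k])

theorem flatten_single (l : List ℕ) : (l.map (fun k => [k])).flatten = l := by
  induction l with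
  | nil => rfl
  | cons a l ih => rw [List.map_cons, List.flatten_cons, ih]; rfl

theorem flatten_Sg (l : List ℕ) : (Sg l).flatten = l := by
  rw [Sg, List.flatten_cons, flatten_single, List.nil_append]

theorem Va.lt {d : ℕ} {l : List ℕ} (h : Va d l) {x : ℕ} (hx : x ∈ l) : x < d := by
  by_contra hd
  have h1 := h x
  rw [if_neg hd, List.count_eq_zero] at h1
  exact h1 hx

theorem Va.vl {d : ℕ} {l : List ℕ} (h : Va d l) : VL d (Sg l) := by
  refine ⟨by simp [Sg], ?_, ?_⟩
  · intro b hb
    rw [Sg, List.mem_cons, List.mem_map] at hb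
    rcases hb with rfl | ⟨x, -, rfl⟩
    · exact List.Pairwise.nil
    · exact List.pairwise_singleton _ _
  · rw [flatten_Sg]
    exact h

theorem surj_aux {d : ℕ} {σ : ℕ → ℕ} (hi : Set.InjOn σ {k | k < d}) (hm : ∀ k, k < d → σ k < d)
    {k : ℕ} (hk : k < d) : ∃ j, j < d ∧ σ j = k := by
  have h1 : (range d).image σ = range d := by
    apply Finset.eq_of_subset_of_card_le
    · intro x hx
      rw [Finset.mem_image] at hx
      obtain ⟨y, hy, rfl⟩ := hx
      exact Finset.mem_range.mpr (hm y (Finset.mem_range.mp hy))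
    · rw [Finset.card_image_of_injOn]
      intro x hx y hy hxy
      exact hi (Finset.mem_range.mp (Finset.mem_coe.mp hx))
        (Finset.mem_range.mp (Finset.mem_coe.mp hy)) hxy
  have h2 : k ∈ (range d).image σ := by rw [h1]; exact Finset.mem_range.mpr hk
  rw [Finset.mem_image] at h2
  obtain ⟨j, hj, hjk⟩ := h2
  exact ⟨j, Finset.mem_range.mp hj, hjk⟩

theorem Va.map {d : ℕ} {l : List ℕ} (h : Va d l) {σ : ℕ → ℕ} (hi : Set.InjOn σ {k | k < d})
    (hm : ∀ k, k < d → σ k < d) : Va d (l.map σ) := by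
  intro k
  split_ifs with hk
  · obtain ⟨j, hj, hjk⟩ := surj_aux hi hm hk
    have h1 := h j
    rw [if_pos hj] at h1
    rw [← h1, List.count, List.count, List.countP_map]
    apply List.countP_congr
    intro x hx
    rw [Function.comp_apply, beq_iff_eq, beq_iff_eq]
    constructor
    · intro hxk
      exact hi (h.lt hx) hj (hxk.trans hjk.symm)
    · rintro rfl
      exact hjk
  · rw [List.count_eq_zero]
    intro hx
    rw [List.mem_map] at hx
    obtain ⟨y, hy, rfl⟩ := hx
    exact hk (hm y (h.lt hy))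

/-- the renaming of the rotation in time -/
def rho (d κ x : ℕ) : ℕ := if κ ≤ x then x - κ else x + (d - κ)

theorem rho_lt {d κ x : ℕ} (hκ : κ ≤ d) (hx : x < d) : rho d κ x < d := by
  unfold rho
  split_ifs <;> omega

theorem rho_inj {d κ : ℕ} (hκ : κ ≤ d) : Set.InjOn (rho d κ) {k | k < d} := by
  intro x hx y hy hxy
  simp only [Set.mem_ofPred_eq] at hx hy
  unfold rho at hxy
  split_ifs at hxy <;> omega

theorem flatten_zip (d κ : ℕ) (c : List ℕ) (l : List ℕ) : ∀ b₀ : List ℕ,
    (List.zipWith (fun b b' : List ℕ => (b.filter (κ ≤ ·)).map (· - κ) ++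
      (b'.filter (· < κ)).map (· + (d - κ))) (b₀ :: l.map (fun k => [k]))
      (l.map (fun k => [k]) ++ [c])).flatten =
    (b₀.filter (κ ≤ ·)).map (· - κ) ++ (l.map (rho d κ) ++
      (c.filter (· < κ)).map (· + (d - κ))) := by
  induction l with
  | nil =>
    intro b₀
    simp
  | cons a l ih =>
    intro b₀
    rw [List.map_cons, List.cons_append, List.zipWith_cons_cons, List.flatten_cons, ih [a],
      List.append_assoc, List.map_cons]
    congr 1
    by_cases ha : κ ≤ a
    · have h1 : ¬ a < κ := by omega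
      simp [ha, h1, rho]
    · have h1 : a < κ := by omega
      simp [ha, h1, rho]

theorem flatten_Rk (d κ : ℕ) (l : List ℕ) : (Rk d κ (Sg l)).flatten = l.map (rho d κ) := by
  have h := flatten_zip d κ [] l []
  simp only [List.filter_nil, List.map_nil, List.append_nil, List.nil_append] at h
  have h1 : ([] :: l.map (fun k => [k]) : List (List ℕ)).rotate 1 =
      l.map (fun k => [k]) ++ [[]] := by
    rw [List.rotate_cons_succ, List.rotate_zero]
  rw [← h, Rk, Sg, h1]

theorem mem_zip {κ d : ℕ} (X Y : List (List ℕ)) {b : List ℕ}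
    (hb : b ∈ List.zipWith (fun b b' : List ℕ => (b.filter (κ ≤ ·)).map (· - κ) ++
      (b'.filter (· < κ)).map (· + (d - κ))) X Y) : ∃ x ∈ X, ∃ y ∈ Y,
      b = (x.filter (κ ≤ ·)).map (· - κ) ++ (y.filter (· < κ)).map (· + (d - κ)) := by
  induction X generalizing Y with
  | nil => simp at hb
  | cons x X ih =>
    cases Y with
    | nil => simp at hb
    | cons y Y =>
      rw [List.zipWith_cons_cons, List.mem_cons] at hb
      rcases hb with rfl | hb
      · exact ⟨x, List.mem_cons_self, y, List.mem_cons_self, rfl⟩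
      · obtain ⟨x', hx', y', hy', h⟩ := ih Y hb
        exact ⟨x', List.mem_cons_of_mem _ hx', y', List.mem_cons_of_mem _ hy', h⟩

theorem vl_Rk {d κ : ℕ} (hκ : κ ≤ d) {l : List ℕ} (h : Va d l) : VL d (Rk d κ (Sg l)) := by
  refine ⟨?_, ?_, ?_⟩
  · intro h0
    have h1 : (Rk d κ (Sg l)).length = 0 := by rw [h0]; rfl
    rw [Rk, List.length_zipWith, List.length_rotate, min_self] at h1
    simp [Sg] at h1
  · intro b hb
    obtain ⟨x, hx, y, hy, rfl⟩ := mem_zip _ _ hb
    rw [List.mem_rotate] at hy
    rw [Sg, List.mem_cons, List.mem_map] at hx hy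
    rcases hx with rfl | ⟨x, hx, rfl⟩ <;> rcases hy with rfl | ⟨y, -, rfl⟩
    · simp
    · by_cases hyκ : y < κ
      · simp [hyκ]
      · simp [hyκ]
    · by_cases hxκ : κ ≤ x
      · simp [hxκ]
      · simp [hxκ]
    · have hxd := h.lt hx
      by_cases hyκ : y < κ
      · by_cases hxκ : κ ≤ x
        · have h1 : x - κ < y + (d - κ) := by omega
          simp [hxκ, hyκ, h1]
        · simp [hxκ, hyκ]
      · by_cases hxκ : κ ≤ x
        · simp [hxκ, hyκ]
        · simp [hxκ, hyκ]
  · rw [flatten_Rk]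
    exact h.map (rho_inj hκ) fun k hk => rho_lt hκ hk

/-- the rotation in time -/
theorem H_rho (hFUL : T_FUL) {B : Type} [AddCommGroup B] {d : ℕ} {H : List (List ℕ) → B}
    (hH : HI d H) {κ : ℕ} (hκ : κ ≤ d) {l : List ℕ} (h : Va d l) :
    H (Sg (l.map (rho d κ))) = H (Sg l) := by
  rw [← hH.rk κ (Sg l) h.vl hκ, hFUL B d H hH _ (vl_Rk hκ h), flatten_Rk]
  rfl

theorem map_Sg (l : List ℕ) (f : ℕ → ℕ) : (Sg l).map (fun b => b.map f) = Sg (l.map f) := by
  rw [Sg, Sg, List.map_cons, List.map_map, List.map_map]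
  rfl

/-- the exchange of the first two double points -/
theorem H_sw {B : Type} [AddCommGroup B] {d : ℕ} {H : List (List ℕ) → B}
    (hH : HI d H) (hd : 2 ≤ d) {l : List ℕ} (h : Va d l) :
    H (Sg (l.map (Equiv.swap 0 1))) = H (Sg l) := by
  rw [← map_Sg]
  apply hH.sw _ h.vl hd
  rintro b hb ⟨h0, h1⟩
  rw [Sg, List.mem_cons, List.mem_map] at hb
  rcases hb with rfl | ⟨x, -, rfl⟩
  · simp at h0
  · rw [List.mem_singleton] at h0 h1
    omega

theorem rho_swap (d k : ℕ) (hk : k + 1 < d) (x : ℕ) :
    rho d k (Equiv.swap k (k + 1) x) = Equiv.swap 0 1 (rho d k x) := by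
  by_cases h1 : x = k
  · subst h1
    rw [Equiv.swap_apply_left]
    unfold rho
    rw [if_pos (by omega), if_pos le_rfl, Nat.sub_self, Equiv.swap_apply_left]
    omega
  by_cases h2 : x = k + 1
  · subst h2
    rw [Equiv.swap_apply_right]
    unfold rho
    rw [if_pos le_rfl, if_pos (by omega), Nat.add_sub_cancel_left, Equiv.swap_apply_right]
    omega
  rw [Equiv.swap_apply_of_ne_of_ne h1 h2, Equiv.swap_apply_of_ne_of_ne]
  · unfold rho
    split_ifs <;> omega
  · unfold rho
    split_ifs <;> omega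

/-- the exchange of two successive double points -/
theorem H_adj (hFUL : T_FUL) {B : Type} [AddCommGroup B] {d : ℕ} {H : List (List ℕ) → B}
    (hH : HI d H) {k : ℕ} (hk : k + 1 < d) {l : List ℕ} (h : Va d l) :
    H (Sg (l.map (Equiv.swap k (k + 1)))) = H (Sg l) := by
  have hκ : k ≤ d := by omega
  have h1 : Va d (l.map (Equiv.swap k (k + 1))) := by
    apply h.map
    · intro x _ y _ hxy
      exact (Equiv.swap k (k + 1)).injective hxy
    · intro x hx
      by_cases h1 : x = k
      · rw [h1, Equiv.swap_apply_left]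
        exact hk
      by_cases h2 : x = k + 1
      · rw [h2, Equiv.swap_apply_right]
        omega
      rw [Equiv.swap_apply_of_ne_of_ne h1 h2]
      exact hx
  have h2 : Va d (l.map (rho d k)) := h.map (rho_inj hκ) fun k hk => rho_lt hκ hk
  rw [← H_rho hFUL hH hκ h1, ← H_rho hFUL hH hκ h, ← H_sw hH (by omega) h2, List.map_map,
    List.map_map]
  exact congrArg (fun m => H (Sg m)) (List.map_congr_left fun x _ => rho_swap d k hk x)

/-- extension of a permutation -/
def ex {d : ℕ} (σ : Equiv.Perm (Fin d)) (k : ℕ) : ℕ := if h : k < d then (σ ⟨k, h⟩ : ℕ) else k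

theorem ex_lt {d : ℕ} (σ : Equiv.Perm (Fin d)) {k : ℕ} (h : k < d) :
    ex σ k = (σ ⟨k, h⟩ : ℕ) := dif_pos h

theorem H_perm (hFUL : T_FUL) {B : Type} [AddCommGroup B] {d : ℕ} {H : List (List ℕ) → B}
    (hH : HI d H) (σ : Equiv.Perm (Fin d)) : ∀ l : List ℕ, Va d l →
      H (Sg (l.map (ex σ))) = H (Sg l) := by
  have hid : ∀ l : List ℕ, Va d l → ∀ f g : ℕ → ℕ, (∀ k, k < d → f k = g k) →
      l.map f = l.map g := by
    intro l hl f g hfg
    exact List.map_congr_left fun x hx => hfg x (hl.lt hx)
  cases d with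
  | zero =>
    intro l hl
    rw [hid l hl _ id fun k hk => absurd hk (by omega), List.map_id]
  | succ n =>
    have hσ : σ ∈ Submonoid.closure
        (Set.range fun i : Fin n => Equiv.swap i.castSucc i.succ) := by
      rw [Equiv.Perm.mclosure_swap_castSucc_succ]
      exact Submonoid.mem_top _
    induction hσ using Submonoid.closure_induction with
    | mem τ hτ =>
      obtain ⟨i, rfl⟩ := hτ
      intro l hl
      rw [← H_adj hFUL hH (k := i) (by omega) hl]
      congr 2
      apply hid l hl
      intro k hk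
      rw [ex_lt _ hk]
      by_cases h1 : k = i
      · subst h1
        have h2 : (⟨(i : ℕ), hk⟩ : Fin (n + 1)) = i.castSucc := Fin.ext rfl
        rw [h2, Equiv.swap_apply_left, Equiv.swap_apply_left]
        rfl
      by_cases h2 : k = i + 1
      · subst h2
        have h2 : (⟨(i : ℕ) + 1, hk⟩ : Fin (n + 1)) = i.succ := Fin.ext rfl
        rw [h2, Equiv.swap_apply_right, Equiv.swap_apply_right]
        rfl
      rw [Equiv.swap_apply_of_ne_of_ne h1 h2, Equiv.swap_apply_of_ne_of_ne]
      · intro h
        exact h1 (congrArg Fin.val h)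
      · intro h
        exact h2 (congrArg Fin.val h)
    | one =>
      intro l hl
      rw [hid l hl _ id fun k hk => by rw [ex_lt _ hk]; rfl, List.map_id]
    | mul σ τ _ _ hσ hτ =>
      intro l hl
      have h1 : l.map (ex (σ * τ)) = (l.map (ex τ)).map (ex σ) := by
        rw [List.map_map]
        apply hid l hl
        intro k hk
        rw [ex_lt _ hk, Function.comp_apply, ex_lt τ hk, ex_lt σ (τ ⟨k, hk⟩).2]
        rfl
      have h2 : Va (n + 1) (l.map (ex τ)) := by
        apply hl.map
        · intro x hx y hy hxy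
          simp only [Set.mem_ofPred_eq] at hx hy
          rw [ex_lt τ hx, ex_lt τ hy] at hxy
          exact congrArg Fin.val (τ.injective (Fin.ext hxy))
        · intro k hk
          rw [ex_lt τ hk]
          exact (τ ⟨k, hk⟩).2
      rw [h1, hσ _ h2, hτ l hl]

theorem prm (hFUL : T_FUL) : T_PRM := by
  intro B _ d H hH l σ hl hi hm
  obtain ⟨f, hf⟩ : ∃ f : Fin d → Fin d, f = fun k => ⟨σ k, hm k k.2⟩ := ⟨_, rfl⟩
  have hfi : Function.Injective f := by
    intro x y hxy
    rw [hf] at hxy
    exact Fin.ext (hi x.2 y.2 (congrArg Fin.val hxy))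
  have hfb : Function.Bijective f := Finite.injective_iff_bijective.mp hfi
  have h1 := H_perm hFUL hH (Equiv.ofBijective f hfb) l hl
  have h2 : l.map (ex (Equiv.ofBijective f hfb)) = l.map σ := by
    apply List.map_congr_left
    intro x hx
    have hx' : x < d := Va.lt hl hx
    rw [ex_lt _ hx', Equiv.ofBijective_apply, hf]
  rw [h2] at h1
  exact h1

end Pool.Agent.H26.LNT
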